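import Pool.Agent.X303.BB.LatticeDefs

/-!
# Chains of correspondences: proofs
-/

set_option autoImplicit false

namespace Pool.Agent.X303.BB

variable {V : Type} {T : CycleData V} {C : V → Prop}

section

variable {A B : Type} [AddCommGroup A] [AddCommGroup B] {f : A → B}

theorem IsAdd.map_zero (hf : IsAdd f) : f 0 = 0 := by
  have h := hf 0 0
  rw [add_zero] at h
  exact left_eq_add.1 h

theorem IsAdd.map_neg (hf : IsAdd f) (x : A) : f (-x) = -f x := by
  have h := hf x (-x)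
  rw [add_neg_cancel, hf.map_zero] at h
  exact (neg_eq_of_add_eq_zero_right h.symm).symm

theorem IsAdd.map_sub (hf : IsAdd f) (x y : A) : f (x - y) = f x - f y := by
  rw [sub_eq_add_neg, hf, hf.map_neg, ← sub_eq_add_neg]

theorem IsAdd.map_sum (hf : IsAdd f) {ι : Type} (s : Finset ι) (g : ι → A) :
    f (∑ i ∈ s, g i) = ∑ i ∈ s, f (g i) := by
  have h := _root_.map_sum (AddMonoidHom.mk' f hf) g s
  exact h

theorem IsAdd.map_smul [Module ℚ A] [Module ℚ B] (hf : IsAdd f) (q : ℚ) (x : A) :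
    f (q • x) = q • f x := by
  have h := map_rat_smul (AddMonoidHom.mk' f hf) q x
  exact h

end

/-- the operation of a correspondence as a linear map -/
def actL (hT : IsCycleTheory T) {X Y : V} {ℓ j k : ℤ} (h : k + T.dim X = j + ℓ)
    (Γ : T.CH (T.prod X Y) ℓ) : T.CH X j →ₗ[ℚ] T.CH Y k where
  toFun := T.act h Γ
  map_add' := (hT.add.act X Y ℓ j k h).1 Γ
  map_smul' q x := IsAdd.map_smul ((hT.add.act X Y ℓ j k h).1 Γ) q x

@[simp] theorem actL_apply (hT : IsCycleTheory T) {X Y : V} {ℓ j k : ℤ} (h : k + T.dim X = j + ℓ)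
    (Γ : T.CH (T.prod X Y) ℓ) (z : T.CH X j) : actL hT h Γ z = T.act h Γ z := rfl

/-- the cycles homologically equivalent to zero -/
def hom (hT : IsCycleTheory T) (X : V) (j : ℤ) : Submodule ℚ (T.CH X j) where
  carrier := {z | T.cl X j z = 0}
  add_mem' {a b} ha hb := by
    have h1 : T.cl X j a = 0 := ha
    have h2 : T.cl X j b = 0 := hb
    change T.cl X j (a + b) = 0
    rw [hT.add.cl, h1, h2, add_zero]
  zero_mem' := (hT.add.cl X j).map_zero
  smul_mem' q a ha := by
    have h1 : T.cl X j a = 0 := ha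
    -- `q • a` with the diagonal
    have h2 : ∀ n : ℤ, T.cl X j (n • a) = 0 := by
      intro n
      have h3 := map_zsmul (AddMonoidHom.mk' _ (hT.add.cl X j)) n a
      have h4 : T.cl X j (n • a) = n • T.cl X j a := h3
      rw [h4, h1, smul_zero]
    obtain ⟨Δ, hΔ, hΔ'⟩ := hT.diag X
    have h3 : (q • a : T.CH X j) = T.act (rfl : j + T.dim X = j + T.dim X) (q • Δ) a := by
      have h4 := IsAdd.map_smul ((hT.add.act X X (T.dim X) j j rfl).2 a) q Δ
      have h5 : T.act (rfl : j + T.dim X = j + T.dim X) (q • Δ) a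
        = q • T.act (rfl : j + T.dim X = j + T.dim X) Δ a := h4
      rw [h5, hΔ]
    change T.cl X j (q • a) = 0
    rw [h3, hT.cl_act X X _ j j rfl rfl, h1]
    exact ((hT.add.actH X X _ _ _ rfl).1 _).map_zero

theorem mem_hom (hT : IsCycleTheory T) {X : V} {j : ℤ} {z : T.CH X j} :
    z ∈ hom hT X j ↔ T.cl X j z = 0 := Iff.rfl

/-- the cycles homologically and Abel-Jacobi equivalent to zero -/
def kerAJ (hT : IsCycleTheory T) (X : V) (j : ℤ) : Submodule ℚ (T.CH X j) where
  carrier := {z | AJTrivial T z}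
  add_mem' {a b} ha hb := by
    refine ⟨(hom hT X j).add_mem ha.1 hb.1, ?_⟩
    rw [hT.add.AJ X j a b ha.1 hb.1, ha.2, hb.2, add_zero]
  zero_mem' := by
    refine ⟨(hT.add.cl X j).map_zero, ?_⟩
    have h := hT.add.AJ X j 0 0 (hT.add.cl X j).map_zero (hT.add.cl X j).map_zero
    rw [add_zero] at h
    exact left_eq_add.1 h
  smul_mem' q a ha := by
    refine ⟨(hom hT X j).smul_mem q ha.1, ?_⟩
    obtain ⟨Δ, hΔ, hΔ'⟩ := hT.diag X
    have h3 : (q • a : T.CH X j) = T.act (rfl : j + T.dim X = j + T.dim X) (q • Δ) a := by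
      have h4 := IsAdd.map_smul ((hT.add.act X X (T.dim X) j j rfl).2 a) q Δ
      have h5 : T.act (rfl : j + T.dim X = j + T.dim X) (q • Δ) a
        = q • T.act (rfl : j + T.dim X = j + T.dim X) Δ a := h4
      rw [h5, hΔ]
    rw [h3, hT.aj_act X X _ j j rfl _ _ ha.1, ha.2]
    exact ((hT.add.actJ X X _ _ _ rfl).1 _).map_zero

theorem mem_kerAJ (hT : IsCycleTheory T) {X : V} {j : ℤ} {z : T.CH X j} :
    z ∈ kerAJ hT X j ↔ AJTrivial T z := Iff.rfl

theorem minF_one (hT : IsCycleTheory T) (X : V) (j : ℤ) : minF T C X j 1 = hom hT X j :=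
  Submodule.span_eq (hom hT X j)

theorem minF_two (hT : IsCycleTheory T) (X : V) (j : ℤ) : minF T C X j 2 = kerAJ hT X j :=
  Submodule.span_eq (kerAJ hT X j)

theorem act_hom (hT : IsCycleTheory T) {X Y : V} {ℓ j k : ℤ} (h : k + T.dim X = j + ℓ)
    (Γ : T.CH (T.prod X Y) ℓ) {z : T.CH X j} (hz : T.cl X j z = 0) :
    T.cl Y k (T.act h Γ z) = 0 := by
  rw [hT.cl_act _ _ _ _ _ h (by linear_combination 2 * h), hz]
  exact ((hT.add.actH X Y _ _ _ _).1 _).map_zero

theorem act_hom_of_kills (hT : IsCycleTheory T) {X Y : V} {ℓ j k : ℤ} (h : k + T.dim X = j + ℓ)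
    (Γ : T.CH (T.prod X Y) ℓ) (hΓ : Kills T Γ (2 * j)) (z : T.CH X j) :
    T.cl Y k (T.act h Γ z) = 0 := by
  rw [hT.cl_act _ _ _ _ _ h (by linear_combination 2 * h)]
  exact hΓ _ _ _

theorem act_kerAJ (hT : IsCycleTheory T) {X Y : V} {ℓ j k : ℤ} (h : k + T.dim X = j + ℓ)
    (Γ : T.CH (T.prod X Y) ℓ) {z : T.CH X j} (hz : AJTrivial T z) :
    AJTrivial T (T.act h Γ z) := by
  refine ⟨act_hom hT h Γ hz.1, ?_⟩
  rw [hT.aj_act _ _ _ _ _ h Γ z hz.1, hz.2]
  exact ((hT.add.actJ X Y _ _ _ h).1 _).map_zero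

theorem act_kerAJ_of_kills (hT : IsCycleTheory T) {X Y : V} {ℓ j k : ℤ} (h : k + T.dim X = j + ℓ)
    (Γ : T.CH (T.prod X Y) ℓ) (hΓ : Kills T Γ (2 * j - 1)) {z : T.CH X j}
    (hz : T.cl X j z = 0) : AJTrivial T (T.act h Γ z) := by
  refine ⟨act_hom hT h Γ hz, ?_⟩
  rw [hT.aj_act _ _ _ _ _ h Γ z hz]
  exact hT.actJ _ _ _ _ _ h (by linear_combination 2 * h) Γ (fun c => hΓ _ _ c) _

/-- composition of two correspondences -/
theorem comp_act (hT : IsCycleTheory T) {X Y Z : V} {ℓ m : ℤ} (Γ : T.CH (T.prod X Y) ℓ)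
    (Δ : T.CH (T.prod Y Z) m) : ∃ E : T.CH (T.prod X Z) (ℓ + m - T.dim Y),
      (∀ (i j k : ℤ) (h : j + T.dim X = i + ℓ) (h' : k + T.dim Y = j + m)
        (h'' : k + T.dim X = i + (ℓ + m - T.dim Y)) (z : T.CH X i),
        T.act h'' E z = T.act h' Δ (T.act h Γ z)) ∧
      (∀ d, Kills T Γ d → Kills T E d) ∧
      ∀ d, Kills T Δ (d + 2 * ℓ - 2 * T.dim X) → Kills T E d := by
  obtain ⟨E, h1, h2⟩ := hT.comp X Y Z ℓ m (ℓ + m - T.dim Y) (by ring) Γ Δ
  refine ⟨E, h1, fun d hd n h c => ?_, fun d hd n h c => ?_⟩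
  · rw [h2 d (d + 2 * ℓ - 2 * T.dim X) n (by ring) (by linear_combination h) h c, hd]
    exact ((hT.add.actH Y Z _ _ _ _).1 _).map_zero
  · rw [h2 d (d + 2 * ℓ - 2 * T.dim X) n (by ring) (by linear_combination h) h c]
    exact hd _ _ _

theorem Chain.two_le {X : V} {j : ℤ} {ν : ℕ} {z : T.CH X j} (h : Chain T C X j ν z) : 2 ≤ ν := by
  induction h with
  | base => exact le_refl _
  | step => omega

theorem Chain.mem {X : V} {j : ℤ} {ν : ℕ} {z : T.CH X j} (h : Chain T C X j ν z) : C X := by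
  cases h with
  | base hX => assumption
  | step _ hY => assumption

theorem Chain.kerAJ (hT : IsCycleTheory T) {X : V} {j : ℤ} {ν : ℕ} {z : T.CH X j}
    (h : Chain T C X j ν z) : AJTrivial T z := by
  induction h with
  | base X hX j z hz => exact hz
  | step X Y hY ℓ j k h Γ ν z hz hΓ ih => exact act_kerAJ hT h Γ ih

/-- correspondences map ends of chains to ends of chains of the same level -/
theorem Chain.act (hT : IsCycleTheory T) {X Y : V} (hY : C Y) {ℓ j k : ℤ} (h : k + T.dim X = j + ℓ)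
    (Γ : T.CH (T.prod X Y) ℓ) {ν : ℕ} {z : T.CH X j} (hz : Chain T C X j ν z) :
    Chain T C Y k ν (T.act h Γ z) := by
  cases hz with
  | base _ hX _ _ hz => exact Chain.base _ hY _ _ (act_kerAJ hT h Γ hz)
  | step X' _ _ ℓ' j' _ h' Γ' ν' z' hz' hΓ' =>
    obtain ⟨E, h1, h2, -⟩ := comp_act hT Γ' Γ
    have h3 := h1 j' j k h' h (by linear_combination h' + h) z'
    rw [← h3]
    exact Chain.step _ _ hY _ _ _ _ E _ _ hz' (h2 _ hΓ')

/-- the end of a chain of level `ν + 1 ≥ 3` is the end of a chain of level `ν` -/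
theorem Chain.anti (hT : IsCycleTheory T) {X : V} {j : ℤ} {ν : ℕ} {z : T.CH X j}
    (hz : Chain T C X j (ν + 1) z) (hν : 2 ≤ ν) : Chain T C X j ν z := by
  have hX := hz.mem
  cases hz with
  | base => omega
  | step X' _ _ ℓ' j' _ h' Γ' ν' z' hz' hΓ' => exact hz'.act hT hX h' Γ'

/-- the ends of chains belong to each Bloch-Beilinson filtration -/
theorem Chain.mem_filtration {F : ∀ (X : V) (j : ℤ), ℕ → Submodule ℚ (T.CH X j)}
    (hF : IsBB T C F) {X : V} {j : ℤ} {ν : ℕ} {z : T.CH X j} (h : Chain T C X j ν z) :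
    z ∈ F X j ν := by
  induction h with
  | base X hX j z hz => exact (hF.two X hX j z).2 hz
  | step X Y hY ℓ j k h Γ ν z hz hΓ ih => exact hF.gr X hz.mem Y hY ℓ j k h Γ ν hΓ z ih

theorem span_act (hT : IsCycleTheory T) {X Y : V} {ℓ j k : ℤ} (h : k + T.dim X = j + ℓ)
    (Γ : T.CH (T.prod X Y) ℓ)
    {S : Set (T.CH X j)} {N : Submodule ℚ (T.CH Y k)} (hS : ∀ z ∈ S, T.act h Γ z ∈ N) {z : T.CH X j}
    (hz : z ∈ Submodule.span ℚ S) : T.act h Γ z ∈ N := by
  have h1 : Submodule.span ℚ S ≤ N.comap (actL hT h Γ) := Submodule.span_le.2 hS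
  exact h1 hz

theorem isBB_minF (hT : IsCycleTheory T)
    (h0 : ∀ X, C X → ∀ j : ℕ, 2 ≤ j → ∀ z : T.CH X j, Chain T C X j (j + 1) z → z = 0) :
    IsBB T C (minF T C) where
  anti X hX j ν := by
    match ν with
    | 0 => exact le_top
    | 1 =>
      rw [minF_one hT, minF_two hT]
      exact fun z hz => hz.1
    | 2 =>
      rw [minF_two hT]
      refine Submodule.span_le.2 ?_
      intro z hz
      exact Chain.kerAJ hT hz
    | n + 3 =>
      refine Submodule.span_mono ?_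
      intro z hz
      exact Chain.anti hT hz (by omega)
  zero X hX j z := trivial
  one X hX j z := by rw [minF_one hT, mem_hom]
  two X hX j z := by rw [minF_two hT, mem_kerAJ]
  top X hX j z hz := by
    match j, z, hz with
    | 0, z, hz =>
      rw [zero_add, minF_one hT] at hz
      exact hT.codim_zero X z hz
    | 1, z, hz =>
      have h2 : z ∈ minF T C X ((1 : ℕ) : ℤ) 2 := hz
      rw [minF_two hT] at h2
      exact hT.codim_one X z h2.1 h2.2
    | j + 2, z, hz =>
      have h1 : Submodule.span ℚ {z | Chain T C X ((j + 2 : ℕ) : ℤ) (j + 3) z} ≤ ⊥ := by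
        refine Submodule.span_le.2 ?_
        intro z hz
        exact h0 X hX (j + 2) (by omega) z hz
      exact h1 hz
  func X hX Y hY ℓ j k h Γ ν z hz := by
    match ν with
    | 0 => trivial
    | 1 =>
      rw [minF_one hT] at hz ⊢
      exact act_hom hT h Γ hz
    | 2 =>
      rw [minF_two hT] at hz ⊢
      exact act_kerAJ hT h Γ hz
    | n + 3 =>
      refine span_act hT h Γ (fun z hz => ?_) hz
      exact Submodule.subset_span (Chain.act hT hY h Γ hz)
  gr X hX Y hY ℓ j k h Γ ν hΓ z hz := by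
    match ν with
    | 0 =>
      rw [zero_add, minF_one hT]
      exact act_hom_of_kills hT h Γ (by simpa using hΓ) z
    | 1 =>
      rw [minF_one hT] at hz
      change T.act h Γ z ∈ minF T C Y k 2
      rw [minF_two hT]
      exact act_kerAJ_of_kills hT h Γ (by simpa using hΓ) hz
    | 2 =>
      rw [minF_two hT] at hz
      exact Submodule.subset_span (Chain.step _ _ hY _ _ _ h Γ _ _ (Chain.base _ hX _ _ hz) hΓ)
    | n + 3 =>
      refine span_act hT h Γ (fun z hz => ?_) hz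
      exact Submodule.subset_span (Chain.step _ _ hY _ _ _ h Γ _ _ hz hΓ)

theorem exists_isBB_iff (hT : IsCycleTheory T) : (∃ F, IsBB T C F) ↔
    ∀ X, C X → ∀ j : ℕ, 2 ≤ j → ∀ z : T.CH X j, Chain T C X j (j + 1) z → z = 0 := by
  constructor
  · rintro ⟨F, hF⟩ X hX j hj z hz
    exact hF.top X hX j z (hz.mem_filtration hF)
  · intro h
    exact ⟨_, isBB_minF hT h⟩

/-- transport of chains on a single variety along a direct summand -/
theorem Chain.transfer (hT : IsCycleTheory T) {X P : V}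
    {ι : T.CH (T.prod X P) (T.dim X)} {ρ : T.CH (T.prod P X) (T.dim P)}
    (hιρ : ∀ (j : ℤ) (h : j + T.dim X = j + T.dim X) (h' : j + T.dim P = j + T.dim P)
      (z : T.CH X j), T.act h' ρ (T.act h ι z) = z)
    {Y : V} {j : ℤ} {ν : ℕ} {z : T.CH Y j} (hz : Chain T (· = X) Y j ν z) (hY : Y = X) :
    Chain T (· = P) P j ν (T.act (rfl : j + T.dim X = j + T.dim X) ι (hY ▸ z : T.CH X j)) := by
  induction hz with
  | base Y _ j z hz =>
    subst hY
    exact Chain.base (C := (· = P)) P rfl _ _ (act_kerAJ hT _ ι hz)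
  | step Y Z hZ ℓ j k h Γ ν z hz hΓ ih =>
    obtain rfl := hz.mem
    subst hY
    have ih' := ih rfl
    -- `Θ = ι ∘ Γ ∘ ρ`
    obtain ⟨E, h1, -, h2⟩ := comp_act hT ρ Γ
    obtain ⟨Θ, h3, h4, -⟩ := comp_act hT E ι
    have h5 : Kills T E (2 * j - ν) := by
      apply h2
      have : (2 * j - ν + 2 * T.dim P - 2 * T.dim P : ℤ) = 2 * j - ν := by ring
      rw [this]
      exact hΓ
    have h6 := h4 _ h5
    have h7 := Chain.step (C := (· = P)) _ P rfl _ _ k (by linear_combination h) Θ _ _ ih' h6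
    have h8 := h3 j k k (by linear_combination h) rfl (by linear_combination h)
      (T.act rfl ι z)
    have h9 := h1 j j k rfl h (by linear_combination h) (T.act rfl ι z)
    rw [h9, hιρ] at h8
    rw [← h8]
    exact h7

end Pool.Agent.X303.BB
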