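import Pool.Agent.X303.BB.Defs

/-!
# Chains of correspondences
-/

set_option autoImplicit false

namespace Pool.Agent.X303.BB

variable {V : Type}

/-- `Chain T C X j ν z`: the cycle `z` of codimension `j` on `X` is the end of a chain of level `ν` of
cycles on varieties with the property `C`. A chain of level two is a cycle which is homologically and
Abel-Jacobi equivalent to zero; and if `z` (of codimension `j`) on `X` is the end of a chain of level `ν`
and the correspondence `Γ` from `X` to `Y` induces the zero map on `H^(2 j - ν)(X)`, then `Γ_* z` is the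
end of a chain of level `ν + 1`. -/
inductive Chain (T : CycleData V) (C : V → Prop) : ∀ (X : V) (j : ℤ), ℕ → T.CH X j → Prop
  | base (X : V) (hX : C X) (j : ℤ) (z : T.CH X j) (hz : AJTrivial T z) : Chain T C X j 2 z
  | step (X Y : V) (hY : C Y) (ℓ j k : ℤ) (h : k + T.dim X = j + ℓ) (Γ : T.CH (T.prod X Y) ℓ) (ν : ℕ)
      (z : T.CH X j) (hz : Chain T C X j ν z) (hΓ : Kills T Γ (2 * j - ν)) :
      Chain T C Y k (ν + 1) (T.act h Γ z)

end Pool.Agent.X303.BB
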