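import Mathlib

/-!
# Chow groups, correspondences and Bloch-Beilinson filtrations
-/

set_option autoImplicit false

namespace Pool.Agent.X303.BB

/-- Data of a theory of algebraic cycles on the varieties `X : V`: the dimension `dim X`, the product
`prod X Y`, the groups `CH X j = CH^j(X) ⊗ ℚ`, the cohomology groups `H X m = H^m(X, ℚ)`, the groups
`J X j = J^(2 j - 1)(X) ⊗ ℚ` (intermediate Jacobians), the cycle class map `cl`, the Abel-Jacobi map `AJ`
(its values only matter for cycles `z` with `cl z = 0`), and the operations of a cycle `Γ` in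
`CH (prod X Y) ℓ = CH^ℓ(X × Y) ⊗ ℚ` on Chow groups, cohomology groups and intermediate Jacobians. -/
structure CycleData (V : Type) where
  dim : V → ℤ
  prod : V → V → V
  CH : V → ℤ → Type
  H : V → ℤ → Type
  J : V → ℤ → Type
  [chGrp : ∀ X j, AddCommGroup (CH X j)]
  [chMod : ∀ X j, Module ℚ (CH X j)]
  [hGrp : ∀ X m, AddCommGroup (H X m)]
  [jGrp : ∀ X j, AddCommGroup (J X j)]
  /-- the cycle class map `CH^j(X) → H^(2 j)(X)` -/
  cl : ∀ (X : V) (j : ℤ), CH X j → H X (2 * j)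
  /-- the Abel-Jacobi map, on the cycles homologically equivalent to zero -/
  AJ : ∀ (X : V) (j : ℤ), CH X j → J X j
  /-- `Γ_* : CH^j(X) → CH^k(Y)`, where `k + dim X = j + ℓ` -/
  act : ∀ {X Y : V} {ℓ j k : ℤ}, k + dim X = j + ℓ → CH (prod X Y) ℓ → CH X j → CH Y k
  /-- `[Γ]_* : H^m(X) → H^n(Y)`, where `n + 2 dim X = m + 2 ℓ` -/
  actH : ∀ {X Y : V} {ℓ m n : ℤ}, n + 2 * dim X = m + 2 * ℓ → CH (prod X Y) ℓ → H X m → H Y n
  /-- the map of the intermediate Jacobians `J^(2 j - 1)(X) → J^(2 k - 1)(Y)` defined by `Γ` -/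
  actJ : ∀ {X Y : V} {ℓ j k : ℤ}, k + dim X = j + ℓ → CH (prod X Y) ℓ → J X j → J Y k

attribute [instance] CycleData.chGrp CycleData.chMod CycleData.hGrp CycleData.jGrp

variable {V : Type}

/-- The function `f` is additive. -/
def IsAdd {A B : Type} [AddCommGroup A] [AddCommGroup B] (f : A → B) : Prop :=
  ∀ x y, f (x + y) = f x + f y

/-- The function `f` is additive in both variables. -/
def IsBiadd {A B C : Type} [AddCommGroup A] [AddCommGroup B] [AddCommGroup C] (f : A → B → C) : Prop :=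
  (∀ a, IsAdd (f a)) ∧ ∀ b, IsAdd fun a => f a b

/-- The cycle class map, the Abel-Jacobi map (on cycles homologically equivalent to zero) and the
operations of cycles on `X × Y` are additive. -/
structure IsAdditive (T : CycleData V) : Prop where
  cl : ∀ X j, IsAdd (T.cl X j)
  AJ : ∀ X j z w, T.cl X j z = 0 → T.cl X j w = 0 → T.AJ X j (z + w) = T.AJ X j z + T.AJ X j w
  act : ∀ X Y ℓ j k (h : k + T.dim X = j + ℓ), IsBiadd (T.act (Y := Y) h)
  actH : ∀ X Y ℓ m n (h : n + 2 * T.dim X = m + 2 * ℓ), IsBiadd (T.actH (Y := Y) h)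
  actJ : ∀ X Y ℓ j k (h : k + T.dim X = j + ℓ), IsBiadd (T.actJ (Y := Y) h)

/-- The cycle `E` on `X × Z` is a composition of `Γ` on `X × Y` and `Δ` on `Y × Z`: it operates as the
composition on the Chow groups and on cohomology. -/
def IsComp (T : CycleData V) {X Y Z : V} {ℓ m n : ℤ} (Γ : T.CH (T.prod X Y) ℓ)
    (Δ : T.CH (T.prod Y Z) m) (E : T.CH (T.prod X Z) n) : Prop :=
  (∀ (i j k : ℤ) (h : j + T.dim X = i + ℓ) (h' : k + T.dim Y = j + m)
    (h'' : k + T.dim X = i + n) (z : T.CH X i), T.act h'' E z = T.act h' Δ (T.act h Γ z)) ∧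
  ∀ (i j k : ℤ) (h : j + 2 * T.dim X = i + 2 * ℓ) (h' : k + 2 * T.dim Y = j + 2 * m)
    (h'' : k + 2 * T.dim X = i + 2 * n) (c : T.H X i), T.actH h'' E c = T.actH h' Δ (T.actH h Γ c)

/-- The cycle `Δ` on `X × X` operates as the identity, as the diagonal does. -/
def IsDiag (T : CycleData V) (X : V) (Δ : T.CH (T.prod X X) (T.dim X)) : Prop :=
  (∀ (j : ℤ) (h : j + T.dim X = j + T.dim X) (z : T.CH X j), T.act h Δ z = z) ∧
    ∀ (m : ℤ) (h : m + 2 * T.dim X = m + 2 * T.dim X) (c : T.H X m), T.actH h Δ c = c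

/-- The cycle class map is compatible with correspondences. -/
def ClCompatible (T : CycleData V) : Prop :=
  ∀ (X Y : V) (ℓ j k : ℤ) (h : k + T.dim X = j + ℓ) (h' : 2 * k + 2 * T.dim X = 2 * j + 2 * ℓ)
    (Γ : T.CH (T.prod X Y) ℓ) (z : T.CH X j), T.cl Y k (T.act h Γ z) = T.actH h' Γ (T.cl X j z)

/-- The Abel-Jacobi map is compatible with correspondences. -/
def AJCompatible (T : CycleData V) : Prop :=
  ∀ (X Y : V) (ℓ j k : ℤ) (h : k + T.dim X = j + ℓ) (Γ : T.CH (T.prod X Y) ℓ) (z : T.CH X j),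
    T.cl X j z = 0 → T.AJ Y k (T.act h Γ z) = T.actJ h Γ (T.AJ X j z)

/-- The operation of `Γ` on the intermediate Jacobian `J^(2 j - 1)(X)` is zero if the operation of `Γ` on
`H^(2 j - 1)(X)` is zero. -/
def JacobianInduced (T : CycleData V) : Prop :=
  ∀ (X Y : V) (ℓ j k : ℤ) (h : k + T.dim X = j + ℓ)
    (h' : 2 * k - 1 + 2 * T.dim X = 2 * j - 1 + 2 * ℓ) (Γ : T.CH (T.prod X Y) ℓ),
    (∀ c : T.H X (2 * j - 1), T.actH h' Γ c = 0) → ∀ x, T.actJ h Γ x = 0

/-- The well-known properties of the Chow groups of smooth projective varieties that are used: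
correspondences can be composed and the diagonal is an identity; the cycle class map and the
Abel-Jacobi map are compatible with correspondences, and the operation of `Γ` on the intermediate
Jacobian `J^(2 j - 1)(X)` is induced by the one on `H^(2 j - 1)(X)`; cycles of codimension zero are
determined by their classes, and cycles of codimension one by their classes and their Abel-Jacobi
invariants; and there are no cycles of negative codimension. -/
structure IsCycleTheory (T : CycleData V) : Prop where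
  add : IsAdditive T
  comp : ∀ (X Y Z : V) (ℓ m n : ℤ), n + T.dim Y = ℓ + m →
    ∀ (Γ : T.CH (T.prod X Y) ℓ) (Δ : T.CH (T.prod Y Z) m), ∃ E : T.CH (T.prod X Z) n, IsComp T Γ Δ E
  diag : ∀ X : V, ∃ Δ, IsDiag T X Δ
  cl_act : ClCompatible T
  aj_act : AJCompatible T
  actJ : JacobianInduced T
  codim_neg : ∀ (X : V) (j : ℤ), j < 0 → ∀ z : T.CH X j, z = 0
  codim_zero : ∀ (X : V) (z : T.CH X 0), T.cl X 0 z = 0 → z = 0
  codim_one : ∀ (X : V) (z : T.CH X 1), T.cl X 1 z = 0 → T.AJ X 1 z = 0 → z = 0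

/-- The variety `X` is a direct summand of `P` in the category of correspondences of degree zero: there
are `ι` in `CH^(dim X)(X × P)` and `ρ` in `CH^(dim P)(P × X)` with `ρ ∘ ι = id`. -/
def IsRetract (T : CycleData V) (X P : V) : Prop :=
  ∃ (ι : T.CH (T.prod X P) (T.dim X)) (ρ : T.CH (T.prod P X) (T.dim P)),
    ∀ (j : ℤ) (h : j + T.dim X = j + T.dim X) (h' : j + T.dim P = j + T.dim P) (z : T.CH X j),
      T.act h' ρ (T.act h ι z) = z

/-- The motive of `X` is a direct summand of a finite sum of motives `h(Y k)(- e k)` with `e k ≥ 0` and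
`Y k` in the class `C`: there are correspondences `ι k` from `X` to `Y k` of degree `- e k` and `ρ k` from
`Y k` to `X` of degree `e k` such that the sum of the `ρ k ∘ ι k` is the identity. -/
def IsGenerated (T : CycleData V) (C : V → Prop) (X : V) : Prop :=
  ∃ (n : ℕ) (Y : Fin n → V) (e : Fin n → ℤ) (ι : ∀ k, T.CH (T.prod X (Y k)) (T.dim X - e k))
    (ρ : ∀ k, T.CH (T.prod (Y k) X) (T.dim (Y k) + e k)), (∀ k, C (Y k)) ∧ (∀ k, 0 ≤ e k) ∧
      ∀ (j : ℤ) (h : ∀ k, (j - e k) + T.dim X = j + (T.dim X - e k))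
        (h' : ∀ k, j + T.dim (Y k) = (j - e k) + (T.dim (Y k) + e k)) (z : T.CH X j),
        ∑ k, T.act (h' k) (ρ k) (T.act (h k) (ι k) z) = z

/-- The cycle `z` is homologically and Abel-Jacobi equivalent to zero. -/
def AJTrivial (T : CycleData V) {X : V} {j : ℤ} (z : T.CH X j) : Prop :=
  T.cl X j z = 0 ∧ T.AJ X j z = 0

/-- The cycle `Γ` on `X × Y` induces the zero map on `H^m(X)`. -/
def Kills (T : CycleData V) {X Y : V} {ℓ : ℤ} (Γ : T.CH (T.prod X Y) ℓ) (m : ℤ) : Prop :=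
  ∀ (n : ℤ) (h : n + 2 * T.dim X = m + 2 * ℓ) (c : T.H X m), T.actH h Γ c = 0

/-- Condition 3 for the varieties with the property `C`: correspondences respect the filtrations. -/
def IsFunctorial (T : CycleData V) (C : V → Prop)
    (F : ∀ (X : V) (j : ℤ), ℕ → Submodule ℚ (T.CH X j)) : Prop :=
  ∀ X, C X → ∀ Y, C Y → ∀ (ℓ j k : ℤ) (h : k + T.dim X = j + ℓ) (Γ : T.CH (T.prod X Y) ℓ)
    (ν : ℕ), ∀ z ∈ F X j ν, T.act h Γ z ∈ F Y k ν

/-- Condition 4 for the varieties with the property `C`: a correspondence which is zero on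
`H^(2 j - ν)(X)` is zero on `F^ν CH^j(X) / F^(ν + 1) CH^j(X)`. -/
def IsControlled (T : CycleData V) (C : V → Prop)
    (F : ∀ (X : V) (j : ℤ), ℕ → Submodule ℚ (T.CH X j)) : Prop :=
  ∀ X, C X → ∀ Y, C Y → ∀ (ℓ j k : ℤ) (h : k + T.dim X = j + ℓ) (Γ : T.CH (T.prod X Y) ℓ)
    (ν : ℕ), Kills T Γ (2 * j - ν) → ∀ z ∈ F X j ν, T.act h Γ z ∈ F Y k (ν + 1)

/-- The filtrations `F X j ν = F^ν CH^j(X)` of the Chow groups of the varieties `X` with the property
`C` form a Bloch-Beilinson filtration for these varieties. -/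
structure IsBB (T : CycleData V) (C : V → Prop) (F : ∀ (X : V) (j : ℤ), ℕ → Submodule ℚ (T.CH X j)) :
    Prop where
  anti : ∀ X, C X → ∀ j ν, F X j (ν + 1) ≤ F X j ν
  zero : ∀ X, C X → ∀ j z, z ∈ F X j 0
  one : ∀ X, C X → ∀ j z, z ∈ F X j 1 ↔ T.cl X j z = 0
  two : ∀ X, C X → ∀ j z, z ∈ F X j 2 ↔ AJTrivial T z
  top : ∀ X, C X → ∀ (j : ℕ), ∀ z ∈ F X j (j + 1), z = 0
  func : IsFunctorial T C F
  gr : IsControlled T C F

end Pool.Agent.X303.BB
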