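import Pool.Agent.X303.BB.ChainDefs

/-!
# Bloch-Beilinson filtrations: the lattice of all such filtrations
-/

set_option autoImplicit false

namespace Pool.Agent.X303.BB

variable {V : Type}

/-- The filtration `F^0 = CH^j(X)`, `F^1` = cycles homologically equivalent to zero, `F^2` = cycles
homologically and Abel-Jacobi equivalent to zero, and, for `ν ≥ 3`, `F^ν` = linear combinations of ends of
chains of level `ν` (of cycles on varieties with the property `C`). (The sets of cycles in the first three
cases are subspaces.) -/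
def minF (T : CycleData V) (C : V → Prop) (X : V) (j : ℤ) : ℕ → Submodule ℚ (T.CH X j)
  | 0 => ⊤
  | 1 => Submodule.span ℚ {z | T.cl X j z = 0}
  | 2 => Submodule.span ℚ {z | AJTrivial T z}
  | n + 3 => Submodule.span ℚ {z | Chain T C X j (n + 3) z}

/-- The sum of a nonempty set of filtrations. -/
def supF (T : CycleData V) (S : Set (∀ (X : V) (j : ℤ), ℕ → Submodule ℚ (T.CH X j)))
    (X : V) (j : ℤ) (ν : ℕ) : Submodule ℚ (T.CH X j) :=
  ⨆ F ∈ S, F X j ν

/-- The intersection of a nonempty set of filtrations. -/
def infF (T : CycleData V) (S : Set (∀ (X : V) (j : ℤ), ℕ → Submodule ℚ (T.CH X j)))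
    (X : V) (j : ℤ) (ν : ℕ) : Submodule ℚ (T.CH X j) :=
  ⨅ F ∈ S, F X j ν

/-- There is an algebraic correspondence `p` of degree zero from `X` to itself which is the identity on
`H^a(X)` and zero on `H^b(X)`. -/
def Separates (T : CycleData V) (X : V) (a b : ℤ) : Prop :=
  ∃ p : T.CH (T.prod X X) (T.dim X),
    (∀ (h : a + 2 * T.dim X = a + 2 * T.dim X) (c : T.H X a), T.actH h p c = c) ∧
      ∀ (h : b + 2 * T.dim X = b + 2 * T.dim X) (c : T.H X b), T.actH h p c = 0

end Pool.Agent.X303.BB
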