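import Pool.Agent.X303.BB.Chain

/-!
# Bloch-Beilinson filtrations: one variety at a time
-/

set_option autoImplicit false

namespace Pool.Agent.X303.BB

variable {V : Type} {T : CycleData V} {C : V → Prop}

/-- each chain can be moved to a single variety -/
theorem Chain.embed (hT : IsCycleTheory T)
    (hC : ∀ X Y, C X → C Y → ∃ P, C P ∧ IsRetract T X P ∧ IsRetract T Y P)
    {X : V} {j : ℤ} {ν : ℕ} {z : T.CH X j}
    (hz : Chain T C X j ν z) : ∃ (P : V) (ι : T.CH (T.prod X P) (T.dim X))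
      (ρ : T.CH (T.prod P X) (T.dim P)), C P ∧
      (∀ (j : ℤ) (h : j + T.dim X = j + T.dim X) (h' : j + T.dim P = j + T.dim P) (z : T.CH X j),
        T.act h' ρ (T.act h ι z) = z) ∧
        Chain T (· = P) P j ν (T.act rfl ι z) := by
  induction hz with
  | base X hX j z hz =>
    obtain ⟨Δ, h1, -⟩ := hT.diag X
    refine ⟨X, Δ, Δ, hX, fun j h h' z => by rw [h1, h1], ?_⟩
    exact Chain.base (C := (· = X)) X rfl _ _ (act_kerAJ hT _ _ hz)
  | step X Y hY ℓ j k h Γ ν z hz hΓ ih =>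
    obtain ⟨P, ι, ρ, hP', hιρ, hP⟩ := ih
    obtain ⟨Q, hQ, ⟨ι₁, ρ₁, h₁⟩, ⟨ι₂, ρ₂, h₂⟩⟩ := hC P Y hP' hY
    refine ⟨Q, ι₂, ρ₂, hQ, h₂, ?_⟩
    have h3 := hP.transfer hT h₁ rfl
    obtain ⟨E, hE, -, hE'⟩ := comp_act hT ρ Γ
    obtain ⟨E₂, hE₂, -, hE₂'⟩ := comp_act hT ρ₁ E
    obtain ⟨Θ, hΘ, hΘ', -⟩ := comp_act hT E₂ ι₂
    have h5 : Kills T E (2 * j - ν) := by
      apply hE'
      have : (2 * j - ν + 2 * T.dim P - 2 * T.dim P : ℤ) = 2 * j - ν := by ring
      rw [this]
      exact hΓ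
    have h6 : Kills T E₂ (2 * j - ν) := by
      apply hE₂'
      have : (2 * j - ν + 2 * T.dim Q - 2 * T.dim Q : ℤ) = 2 * j - ν := by ring
      rw [this]
      exact h5
    have h7 := hΘ' _ h6
    have h8 := Chain.step (C := (· = Q)) _ _ rfl _ _ k (by linear_combination h) Θ _ _ h3 h7
    have h9 := hΘ j k k (by linear_combination h) rfl (by linear_combination h)
      (T.act rfl ι₁ (T.act rfl ι z))
    have h10 := hE₂ j j k rfl (by linear_combination h) (by linear_combination h)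
      (T.act rfl ι₁ (T.act rfl ι z))
    have h11 := hE j j k rfl h (by linear_combination h) (T.act rfl ι z)
    rw [h10, h₁, h11, hιρ] at h9
    rw [← h9]
    exact h8

theorem IsBB.mono {C' : V → Prop} {F : ∀ (X : V) (j : ℤ), ℕ → Submodule ℚ (T.CH X j)}
    (hF : IsBB T C' F) (h : ∀ X, C X → C' X) : IsBB T C F :=
  ⟨fun X hX => hF.anti X (h X hX), fun X hX => hF.zero X (h X hX), fun X hX => hF.one X (h X hX),
    fun X hX => hF.two X (h X hX), fun X hX => hF.top X (h X hX),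
    fun X hX Y hY => hF.func X (h X hX) Y (h Y hY), fun X hX Y hY => hF.gr X (h X hX) Y (h Y hY)⟩

/-- chains on varieties generated by the class `C` are combinations of chains on members of `C` -/
theorem Chain.decompose (hT : IsCycleTheory T) {G : V → Prop} (hG : ∀ X, G X → IsGenerated T C X)
    {X : V} {j : ℤ} {ν : ℕ} {z : T.CH X j} (hz : Chain T G X j ν z) {Y : V} (hY : C Y) {ℓ k : ℤ}
    (h : k + T.dim X = j + ℓ) (θ : T.CH (T.prod X Y) ℓ) :
    T.act h θ z ∈ Submodule.span ℚ {w | Chain T C Y k ν w} := by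
  induction hz generalizing Y ℓ k with
  | base X hX j z hz =>
    exact Submodule.subset_span (Chain.base _ hY _ _ (act_kerAJ hT h θ hz))
  | step X X' hX' ℓ' j j' h' Γ ν z hz hΓ ih =>
    obtain ⟨n, Y', e, ι, ρ, hY', he, hsum⟩ := hG X hz.mem
    rw [← hsum j (fun _ => by ring) (fun _ => by ring) z, ← actL_apply hT h', ← actL_apply hT h,
      map_sum, map_sum]
    refine Submodule.sum_mem _ fun i _ => ?_
    rw [actL_apply, actL_apply]
    -- `E = θ ∘ Γ ∘ ρ i`
    obtain ⟨E, hE, -, hE'⟩ := comp_act hT (ρ i) Γ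
    obtain ⟨E₂, hE₂, hE₂', -⟩ := comp_act hT E θ
    have h1 := hE (j - e i) j j' (by ring) h' (by linear_combination h')
      (T.act (by ring) (ι i) z)
    have h2 := hE₂ (j - e i) j' k (by linear_combination h') h (by linear_combination h + h')
      (T.act (by ring) (ι i) z)
    rw [← h1, ← h2]
    have h3 : Kills T E₂ (2 * (j - e i) - ν) := by
      apply hE₂'
      apply hE'
      have : (2 * (j - e i) - ν + 2 * (T.dim (Y' i) + e i) - 2 * T.dim (Y' i) : ℤ) = 2 * j - ν := by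
        ring
      rw [this]
      exact hΓ
    refine span_act hT _ E₂ (fun w hw => ?_) (ih (hY' i) (by ring) (ι i))
    exact Submodule.subset_span (Chain.step _ _ hY _ _ _ _ E₂ _ _ hw h3)

theorem Chain.anti_le (hT : IsCycleTheory T) {X : V} {j : ℤ} {μ ν : ℕ} {z : T.CH X j}
    (hz : Chain T C X j ν z) (h : μ ≤ ν) (hμ : 2 ≤ μ) : Chain T C X j μ z := by
  induction ν, h using Nat.le_induction with
  | base => exact hz
  | succ ν h ih => exact ih (Chain.anti hT hz (by omega))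

/-- vanishing of the ends of chains whose level is larger than the codimension -/
theorem Chain.vanish (hT : IsCycleTheory T)
    (h0 : ∀ X, C X → ∀ j : ℕ, 2 ≤ j → ∀ z : T.CH X j, Chain T C X j (j + 1) z → z = 0)
    {X : V} {j : ℤ} {ν : ℕ} {z : T.CH X j} (hz : Chain T C X j ν z) (h : j < ν) : z = 0 := by
  have hX := hz.mem
  have h2 := hz.two_le
  rcases lt_or_ge j 0 with hj | hj
  · exact hT.codim_neg X j hj z
  obtain ⟨n, rfl⟩ := Int.eq_ofNat_of_zero_le hj
  have h3 : n < ν := by exact_mod_cast h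
  have h1 := Chain.kerAJ hT hz
  match n, z, h1, hz with
  | 0, z, h1, hz => exact hT.codim_zero X z h1.1
  | 1, z, h1, hz => exact hT.codim_one X z h1.1 h1.2
  | n + 2, z, h1, hz =>
    exact h0 X hX (n + 2) (by omega) z (Chain.anti_le hT hz (by omega) (by omega))

theorem single (hT : IsCycleTheory T) {C₀ G : V → Prop}
    (hC : ∀ X Y, C X → C Y → ∃ P, C P ∧ IsRetract T X P ∧ IsRetract T Y P)
    (h₀ : ∀ X, C₀ X → C X) (h₀' : ∀ X, C X → ∃ P, C₀ P ∧ IsRetract T X P)
    (hG : ∀ X, C X → G X) (hG' : ∀ X, G X → IsGenerated T C X) :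
    [∃ F, IsBB T G F, ∃ F, IsBB T C F, ∀ P, C₀ P → ∃ F, IsBB T (· = P) F,
      ∀ P, C₀ P → ∀ j : ℕ, 2 ≤ j → ∀ z : T.CH P j, Chain T (· = P) P j (j + 1) z → z = 0].TFAE := by
  tfae_have 1 → 2 := by
    rintro ⟨F, hF⟩
    exact ⟨F, hF.mono hG⟩
  tfae_have 2 → 3 := by
    rintro ⟨F, hF⟩ P hP
    exact ⟨F, hF.mono fun X hX => by rw [hX]; exact h₀ P hP⟩
  tfae_have 3 → 4 := by
    intro h P hP
    exact (exists_isBB_iff hT).1 (h P hP) P rfl
  tfae_have 4 → 1 := by
    intro h
    have hC' : ∀ X, C X → ∀ j : ℕ, 2 ≤ j → ∀ z : T.CH X j, Chain T C X j (j + 1) z → z = 0 := by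
      intro X _ j hj z hz
      obtain ⟨P, ι, ρ, hP, h1, h2⟩ := hz.embed hT hC
      obtain ⟨Q, hQ, ι', ρ', h3⟩ := h₀' P hP
      have h4 := h Q hQ j hj _ (h2.transfer hT h3 rfl)
      have h5 : T.act (rfl : (j : ℤ) + T.dim P = j + T.dim P) ι' (T.act rfl ι z) = 0 := h4
      have h6 := h3 j rfl rfl (T.act rfl ι z)
      rw [h5, ((hT.add.act _ _ _ _ _ _).1 _).map_zero] at h6
      have h7 := h1 j rfl rfl z
      rw [← h6, ((hT.add.act _ _ _ _ _ _).1 _).map_zero] at h7
      exact h7.symm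
    refine (exists_isBB_iff hT).2 ?_
    intro X hX j hj z hz
    obtain ⟨n, Y, e, ι, ρ, hY, he, hsum⟩ := hG' X hX
    rw [← hsum j (fun _ => by ring) (fun _ => by ring) z]
    refine Finset.sum_eq_zero fun i _ => ?_
    have h1 : T.act (by ring : (j : ℤ) - e i + T.dim X = j + (T.dim X - e i)) (ι i) z = 0 := by
      have h2 := hz.decompose hT hG' (hY i) (by ring : (j : ℤ) - e i + T.dim X = j + (T.dim X - e i))
        (ι i)
      have h3 : Submodule.span ℚ {w | Chain T C (Y i) ((j : ℤ) - e i) (j + 1) w} ≤ ⊥ := by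
        refine Submodule.span_le.2 fun w hw => ?_
        refine Chain.vanish hT hC' hw ?_
        have := he i
        push_cast
        omega
      exact h3 h2
    rw [h1]
    exact ((hT.add.act _ _ _ _ _ _).1 _).map_zero
  tfae_finish

end Pool.Agent.X303.BB
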