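import Pool.Agent.X303.BB.Single

/-!
# Bloch-Beilinson filtrations: the lattice of all such filtrations, and uniqueness
-/

set_option autoImplicit false

namespace Pool.Agent.X303.BB

variable {V : Type} {T : CycleData V} {C : V → Prop}

theorem minF_le {F : ∀ (X : V) (j : ℤ), ℕ → Submodule ℚ (T.CH X j)}
    (hF : IsBB T C F) {X : V} (hX : C X) (j : ℤ) (ν : ℕ) : minF T C X j ν ≤ F X j ν := by
  match ν with
  | 0 => exact fun z _ => hF.zero X hX j z
  | 1 => exact Submodule.span_le.2 fun z hz => (hF.one X hX j z).2 hz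
  | 2 => exact Submodule.span_le.2 fun z hz => (hF.two X hX j z).2 hz
  | n + 3 => exact Submodule.span_le.2 fun z hz => hz.mem_filtration hF

theorem isBB_minF_of (hT : IsCycleTheory T) {F : ∀ (X : V) (j : ℤ), ℕ → Submodule ℚ (T.CH X j)}
    (hF : IsBB T C F) : IsBB T C (minF T C) :=
  isBB_minF hT ((exists_isBB_iff hT).1 ⟨F, hF⟩)

section

variable {S : Set (∀ (X : V) (j : ℤ), ℕ → Submodule ℚ (T.CH X j))}

theorem supF_eq (hne : S.Nonempty) {X : V} {j : ℤ} {ν : ℕ} {N : Submodule ℚ (T.CH X j)}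
    (h : ∀ F ∈ S, F X j ν = N) : supF T S X j ν = N := by
  unfold supF
  apply le_antisymm
  · exact iSup₂_le fun F hF => (h F hF).le
  · obtain ⟨F, hF⟩ := hne
    exact (h F hF).ge.trans (le_iSup₂_of_le F hF (le_refl _))

theorem mem_infF {X : V} {j : ℤ} {ν : ℕ} {z : T.CH X j} :
    z ∈ infF T S X j ν ↔ ∀ F ∈ S, z ∈ F X j ν := by
  unfold infF
  simp only [Submodule.mem_iInf]

theorem isBB_supF (hT : IsCycleTheory T) (hne : S.Nonempty) (hS : ∀ F ∈ S, IsBB T C F) :
    IsBB T C (supF T S) where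
  anti X hX j ν := iSup₂_mono fun F hF => (hS F hF).anti X hX j ν
  zero X hX j z := by
    rw [supF_eq (N := ⊤) hne fun F hF => eq_top_iff.2 fun z _ => (hS F hF).zero X hX j z]
    trivial
  one X hX j z := by
    rw [supF_eq (N := hom hT X j) hne fun F hF => by ext z; exact (hS F hF).one X hX j z]
    rfl
  two X hX j z := by
    rw [supF_eq (N := kerAJ hT X j) hne fun F hF => by ext z; exact (hS F hF).two X hX j z]
    rfl
  top X hX j z hz := by
    rw [supF_eq (N := ⊥) hne fun F hF => (Submodule.eq_bot_iff _).2 ((hS F hF).top X hX j)] at hz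
    exact hz
  func X hX Y hY ℓ j k h Γ ν z hz := by
    have h1 : supF T S X j ν ≤ (supF T S Y k ν).comap (actL hT h Γ) := by
      refine iSup₂_le fun F hF w hw => ?_
      exact (le_iSup₂_of_le (f := fun F _ => F Y k ν) F hF (le_refl _))
        ((hS F hF).func X hX Y hY ℓ j k h Γ ν w hw)
    exact h1 hz
  gr X hX Y hY ℓ j k h Γ ν hΓ z hz := by
    have h1 : supF T S X j ν ≤ (supF T S Y k (ν + 1)).comap (actL hT h Γ) := by
      refine iSup₂_le fun F hF w hw => ?_
      exact (le_iSup₂_of_le (f := fun F _ => F Y k (ν + 1)) F hF (le_refl _))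
        ((hS F hF).gr X hX Y hY ℓ j k h Γ ν hΓ w hw)
    exact h1 hz

theorem isBB_infF (hne : S.Nonempty) (hS : ∀ F ∈ S, IsBB T C F) : IsBB T C (infF T S) where
  anti X hX j ν := iInf₂_mono fun F hF => (hS F hF).anti X hX j ν
  zero X hX j z := mem_infF.2 fun F hF => (hS F hF).zero X hX j z
  one X hX j z := by
    rw [mem_infF]
    obtain ⟨F, hF⟩ := hne
    exact ⟨fun h => ((hS F hF).one X hX j z).1 (h F hF), fun h F hF => ((hS F hF).one X hX j z).2 h⟩
  two X hX j z := by
    rw [mem_infF]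
    obtain ⟨F, hF⟩ := hne
    exact ⟨fun h => ((hS F hF).two X hX j z).1 (h F hF), fun h F hF => ((hS F hF).two X hX j z).2 h⟩
  top X hX j z hz := by
    obtain ⟨F, hF⟩ := hne
    exact (hS F hF).top X hX j z (mem_infF.1 hz F hF)
  func X hX Y hY ℓ j k h Γ ν z hz := mem_infF.2 fun F hF =>
    (hS F hF).func X hX Y hY ℓ j k h Γ ν z (mem_infF.1 hz F hF)
  gr X hX Y hY ℓ j k h Γ ν hΓ z hz := mem_infF.2 fun F hF =>
    (hS F hF).gr X hX Y hY ℓ j k h Γ ν hΓ z (mem_infF.1 hz F hF)

end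

theorem IsBB.le_of_separates (hT : IsCycleTheory T)
    {F F' : ∀ (X : V) (j : ℤ), ℕ → Submodule ℚ (T.CH X j)} (hF : IsBB T C F) (hF' : IsBB T C F')
    {X : V} (hX : C X) {j : ℕ}
    (hsep : ∀ μ κ : ℕ, 2 ≤ μ → μ < κ → κ ≤ j → Separates T X (2 * j - κ) (2 * j - μ)) (ν : ℕ) :
    F X j ν ≤ F' X j ν := by
  -- descending induction on the level for `F`
  have key : ∀ (μ : ℕ), 2 ≤ μ → ∀ (n κ : ℕ), κ + n = j + 1 → μ < κ → ∀ z ∈ F X j κ, z ∈ F' X j μ →
      z ∈ F' X j (μ + 1) := by
    intro μ hμ n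
    induction n with
    | zero =>
      intro κ hκ _ z hz _
      have h1 : κ = j + 1 := by omega
      rw [h1] at hz
      rw [hF.top X hX j z hz]
      exact Submodule.zero_mem _
    | succ n ih =>
      intro κ hκ hlt z hz hz'
      obtain ⟨p, hp1, hp0⟩ := hsep μ κ hμ hlt (by omega)
      obtain ⟨Δ, hΔ, hΔ'⟩ := hT.diag X
      have h1 : Kills T (Δ - p) (2 * (j : ℤ) - κ) := by
        intro n h c
        obtain rfl : n = 2 * (j : ℤ) - κ := by linear_combination h
        have h2 := IsAdd.map_sub ((hT.add.actH X X (T.dim X) _ _ h).2 c) Δ p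
        have h3 : T.actH h (Δ - p) c = T.actH h Δ c - T.actH h p c := h2
        rw [h3, hΔ', hp1, sub_self]
      have h2 : Kills T p (2 * (j : ℤ) - μ) := by
        intro n h c
        obtain rfl : n = 2 * (j : ℤ) - μ := by linear_combination h
        exact hp0 _ c
      have h3 := hF.gr X hX X hX _ j j rfl (Δ - p) κ h1 z hz
      have h4 := hF'.func X hX X hX _ j j rfl (Δ - p) μ z hz'
      have h5 := ih (κ + 1) (by omega) (by omega) _ h3 h4
      have h6 := hF'.gr X hX X hX _ j j rfl p μ h2 z hz'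
      have h7 : z = T.act (rfl : (j : ℤ) + T.dim X = j + T.dim X) (Δ - p) z
          + T.act (rfl : (j : ℤ) + T.dim X = j + T.dim X) p z := by
        have h8 := IsAdd.map_sub ((hT.add.act X X (T.dim X) j j rfl).2 z) Δ p
        have h9 : T.act (rfl : (j : ℤ) + T.dim X = j + T.dim X) (Δ - p) z
          = T.act (rfl : (j : ℤ) + T.dim X = j + T.dim X) Δ z
            - T.act (rfl : (j : ℤ) + T.dim X = j + T.dim X) p z := h8
        rw [h9, hΔ, sub_add_cancel]
      rw [h7]
      exact Submodule.add_mem _ h5 h6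
  rcases Nat.lt_or_ge ν 3 with h3 | h3
  · have : ν = 0 ∨ ν = 1 ∨ ν = 2 := by omega
    rcases this with rfl | rfl | rfl
    · exact fun z _ => hF'.zero X hX j z
    · exact fun z hz => (hF'.one X hX j z).2 ((hF.one X hX j z).1 hz)
    · exact fun z hz => (hF'.two X hX j z).2 ((hF.two X hX j z).1 hz)
  intro z hz
  rcases Nat.lt_or_ge (j + 1) ν with h4 | h4
  · have h5 : F X j ν ≤ F X j (j + 1) :=
      antitone_nat_of_succ_le (hF.anti X hX j) (by omega)
    rw [hF.top X hX j z (h5 hz)]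
    exact Submodule.zero_mem _
  · have h5 : ∀ μ : ℕ, 2 ≤ μ → μ ≤ ν → z ∈ F' X j μ := by
      intro μ hμ
      induction μ, hμ using Nat.le_induction with
      | base =>
        intro _
        have h6 : F X j ν ≤ F X j 2 :=
          antitone_nat_of_succ_le (hF.anti X hX j) (by omega)
        exact (hF'.two X hX j z).2 ((hF.two X hX j z).1 (h6 hz))
      | succ μ hμ ih =>
        intro hle
        exact key μ hμ (j + 1 - ν) ν (by omega) (by omega) z hz (ih (by omega))
    exact h5 ν (by omega) (le_refl _)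

theorem IsBB.eq_of_separates (hT : IsCycleTheory T)
    {F F' : ∀ (X : V) (j : ℤ), ℕ → Submodule ℚ (T.CH X j)} (hF : IsBB T C F) (hF' : IsBB T C F')
    {X : V} (hX : C X) {j : ℕ}
    (hsep : ∀ μ κ : ℕ, 2 ≤ μ → μ < κ → κ ≤ j → Separates T X (2 * j - κ) (2 * j - μ)) (ν : ℕ) :
    F X j ν = F' X j ν :=
  le_antisymm (hF.le_of_separates hT hF' hX hsep ν) (hF'.le_of_separates hT hF hX hsep ν)

end Pool.Agent.X303.BB
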